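import Mathlib

/-!
# PDZ: graphs drawn in a triangle

Points are given by barycentric coordinates. `Dr S G`: the graph `G` on the points `S` in the open
triangle and the corners is drawn by line segments without crossings, and the corners are not
joined to each other. `Fill c D`: an inductive family of pairs (degrees of the corners, degrees of
the other vertices) of such drawings (`Fill.real`).
-/

set_option autoImplicit false

namespace Pool.Agent.PDZ

/-- points, in barycentric coordinates -/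
abbrev P : Type := Fin 3 → ℝ

/-- the points of a segment -/
def seg (p q : P) (s : ℝ) : P := fun i => (1 - s) * p i + s * q i

/-- the corners -/
def cr (i : Fin 3) : P := fun j => if j = i then 1 else 0

/-- the open triangle -/
def Op (p : P) : Prop := (∀ i, 0 < p i) ∧ p 0 + p 1 + p 2 = 1

/-- straight line drawings in the triangle -/
structure Dr (S : Finset P) (G : SimpleGraph P) : Prop where
  op : ∀ p ∈ S, Op p
  adj : ∀ p q, G.Adj p q → (p ∈ S ∧ q ∈ S) ∨ (p ∈ S ∧ ∃ i, q = cr i) ∨ (q ∈ S ∧ ∃ i, p = cr i)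
  avoid : ∀ p q, G.Adj p q → ∀ w ∈ S, ∀ s, 0 < s → s < 1 → seg p q s ≠ w
  cross : ∀ p q p' q', G.Adj p q → G.Adj p' q' → s(p, q) ≠ s(p', q') →
    ∀ s t, 0 < s → s < 1 → 0 < t → t < 1 → seg p q s ≠ seg p' q' t

/-- Degrees of the corners and degrees of the other vertices of drawings in a triangle: the empty
drawing; renaming of the corners; removal of an isolated vertex; a new vertex joined to some of the
corners (`e`), with drawings in the three triangles (in the `i`-th triangle the new vertex is the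
`i`-th corner). -/
inductive Fill : (Fin 3 → ℕ) → Multiset ℕ → Prop
  | nil : Fill 0 0
  | perm (c : Fin 3 → ℕ) (D : Multiset ℕ) (σ : Equiv.Perm (Fin 3)) (h : Fill c D) :
      Fill (fun i => c (σ i)) D
  | drop (c : Fin 3 → ℕ) (D : Multiset ℕ) (h : Fill c (0 ::ₘ D)) : Fill c D
  | stack (e : Fin 3 → ℕ) (c : Fin 3 → Fin 3 → ℕ) (D : Fin 3 → Multiset ℕ) (he : ∀ i, e i ≤ 1)
      (h : ∀ i, Fill (c i) (D i)) :
      Fill (fun j => c (j + 1) j + c (j + 2) j + e j)
        ((c 0 0 + c 1 1 + c 2 2 + (e 0 + e 1 + e 2)) ::ₘ (D 0 + D 1 + D 2))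

/-- realization of the degrees by a drawing -/
def Rl (c : Fin 3 → ℕ) (D : Multiset ℕ) : Prop :=
  ∃ (S : Finset P) (G : SimpleGraph P), Dr S G ∧ (∀ i, (G.neighborSet (cr i)).ncard = c i) ∧
    S.val.map (fun p => (G.neighborSet p).ncard) = D

/-! ### Corners, barycenter, the maps of the subtriangles -/

theorem cr_inj : Function.Injective cr := by
  intro i j h
  have := congrFun h i
  simp only [cr, if_true] at this
  by_contra hne
  rw [if_neg hne] at this
  norm_num at this

theorem not_op_cr (i : Fin 3) : ¬ Op (cr i) := by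
  intro h
  have := h.1 (i + 1)
  have h2 : ∀ i : Fin 3, i + 1 ≠ i := by decide
  simp only [cr, if_neg (h2 i)] at this
  exact lt_irrefl _ this

/-- the barycenter -/
noncomputable def bc : P := fun _ => 1 / 3

theorem op_bc : Op bc := by
  refine ⟨fun _ => ?_, ?_⟩ <;> norm_num [bc]

theorem bc_ne_cr (i : Fin 3) : bc ≠ cr i := fun h => not_op_cr i (h ▸ op_bc)

/-- the map of the `i`-th subtriangle -/
noncomputable def L (i : Fin 3) (p : P) : P := fun j => if j = i then p i / 3 else p j + p i / 3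

theorem L_inj (i : Fin 3) : Function.Injective (L i) := by
  intro p q h
  have h1 : p i = q i := by
    have := congrFun h i
    simp only [L, if_true] at this
    linarith
  funext j
  by_cases hj : j = i
  · rw [hj, h1]
  · have := congrFun h j
    simp only [L, if_neg hj] at this
    linarith

theorem L_cr_self (i : Fin 3) : L i (cr i) = bc := by
  funext j
  by_cases hj : j = i
  · simp [L, cr, bc, hj]
  · simp [L, cr, bc, hj]

theorem L_cr_ne {i j : Fin 3} (h : j ≠ i) : L i (cr j) = cr j := by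
  funext k
  by_cases hk : k = i
  · subst hk
    simp [L, cr, h.symm]
  · simp [L, cr, hk, h.symm]

theorem L_seg (i : Fin 3) (p q : P) (s : ℝ) : L i (seg p q s) = seg (L i p) (L i q) s := by
  funext j
  by_cases hj : j = i
  · simp only [L, seg, hj, if_true]
    ring
  · simp only [L, seg, hj, if_false]
    ring

/-- the region of the `i`-th subtriangle: the `i`-th coordinate is the unique minimum -/
def Rg (i : Fin 3) (q : P) : Prop := ∀ j, j ≠ i → q i < q j

theorem rg_L {i : Fin 3} {p : P} (h : Op p) : Rg i (L i p) := by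
  intro j hj
  simp only [L, if_neg hj, if_true]
  have := h.1 j
  linarith

theorem rg_unique {i j : Fin 3} {q : P} (h : Rg i q) (h' : Rg j q) : i = j := by
  by_contra hne
  exact lt_asymm (h j (Ne.symm hne)) (h' i hne)

theorem not_rg_bc (i : Fin 3) : ¬ Rg i bc := by
  intro h
  have h2 : ∀ i : Fin 3, i + 1 ≠ i := by decide
  exact lt_irrefl _ (h (i + 1) (h2 i))

theorem op_L {i : Fin 3} {p : P} (h : Op p) : Op (L i p) := by
  refine ⟨fun j => ?_, ?_⟩
  · by_cases hj : j = i
    · simp only [L, hj, if_true]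
      have := h.1 i
      linarith
    · simp only [L, hj, if_false]
      have := h.1 i
      have := h.1 j
      linarith
  · have := h.2
    fin_cases i <;> simp [L] <;> linarith

/-- the open segment from the barycenter to a corner -/
theorem seg_bc_cr {j : Fin 3} {s : ℝ} (h0 : 0 < s) (h1 : s < 1) :
    Op (seg bc (cr j) s) ∧ (∀ k l, k ≠ j → l ≠ j → seg bc (cr j) s k = seg bc (cr j) s l) ∧
      ∀ k, k ≠ j → seg bc (cr j) s k < seg bc (cr j) s j := by
  refine ⟨⟨fun k => ?_, ?_⟩, ?_, ?_⟩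
  · by_cases hk : k = j
    · simp only [seg, bc, cr, hk, if_true]
      linarith
    · simp only [seg, bc, cr, hk, if_false]
      linarith
  · fin_cases j <;> simp [seg, bc, cr] <;> ring
  · intro k l hk hl
    simp only [seg, bc, cr, hk, hl, if_false]
  · intro k hk
    simp only [seg, bc, cr, hk, if_true, if_false]
    linarith

theorem seg_symm (p q : P) (s : ℝ) : seg p q s = seg q p (1 - s) := by
  funext i
  simp only [seg]
  ring

theorem not_rg_star {i j : Fin 3} {s : ℝ} (h0 : 0 < s) (h1 : s < 1) :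
    ¬ Rg i (seg bc (cr j) s) := by
  intro h
  obtain ⟨_, h2, h3⟩ := seg_bc_cr (j := j) h0 h1
  by_cases hij : i = j
  · subst hij
    have h4 : ∀ i : Fin 3, i + 1 ≠ i := by decide
    exact lt_asymm (h (i + 1) (h4 i)) (h3 (i + 1) (h4 i))
  · have h4 : ∀ i j : Fin 3, i ≠ j → ∃ k, k ≠ i ∧ k ≠ j := by decide
    obtain ⟨k, hk1, hk2⟩ := h4 i j hij
    have h5 := h k hk1
    rw [h2 i k hij hk2] at h5
    exact lt_irrefl _ h5

theorem star_unique {i j : Fin 3} {s t : ℝ} (h0 : 0 < s) (h1 : s < 1) (h0' : 0 < t) (h1' : t < 1)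
    (h : seg bc (cr i) s = seg bc (cr j) t) : i = j := by
  by_contra hij
  obtain ⟨_, h2, h3⟩ := seg_bc_cr (j := i) h0 h1
  obtain ⟨_, h2', h3'⟩ := seg_bc_cr (j := j) h0' h1'
  have h4 := h3 j (Ne.symm hij)
  have h5 := h3' i hij
  rw [h] at h4
  exact lt_asymm h4 h5

namespace Dr

variable {S : Finset P} {G : SimpleGraph P}

theorem seg_op (h : Dr S G) {p q : P} (hpq : G.Adj p q) {s : ℝ} (h0 : 0 < s) (h1 : s < 1) :
    Op (seg p q s) := by
  have hcr : ∀ (i : Fin 3), (∀ j, 0 ≤ cr i j) ∧ cr i 0 + cr i 1 + cr i 2 = 1 := by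
    intro i
    refine ⟨fun j => ?_, ?_⟩
    · simp only [cr]
      split_ifs <;> norm_num
    · fin_cases i <;> simp [cr]
  have key : ∀ a b : P, ∀ u : ℝ, 0 < u → u < 1 → Op a → (∀ j, 0 ≤ b j) →
      b 0 + b 1 + b 2 = 1 → Op (seg a b u) := by
    intro a b u hu0 hu1 ha hb hb1
    refine ⟨fun j => ?_, ?_⟩
    · have h2 := ha.1 j
      have h3 := hb j
      have h4 : 0 < (1 - u) * a j := mul_pos (by linarith) h2
      have h5 : 0 ≤ u * b j := mul_nonneg hu0.le h3
      simp only [seg]
      linarith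
    · have h2 := ha.2
      simp only [seg]
      have : (1 - u) * a 0 + u * b 0 + ((1 - u) * a 1 + u * b 1) + ((1 - u) * a 2 + u * b 2) =
          (1 - u) * (a 0 + a 1 + a 2) + u * (b 0 + b 1 + b 2) := by ring
      rw [this, h2, hb1]
      ring
  rcases h.adj p q hpq with ⟨hp, hq⟩ | ⟨hp, i, rfl⟩ | ⟨hq, i, rfl⟩
  · exact key p q s h0 h1 (h.op p hp) (fun j => ((h.op q hq).1 j).le) (h.op q hq).2
  · exact key p (cr i) s h0 h1 (h.op p hp) (hcr i).1 (hcr i).2
  · rw [seg_symm]
    exact key q (cr i) (1 - s) (by linarith) (by linarith) (h.op q hq) (hcr i).1 (hcr i).2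

theorem mem_or (h : Dr S G) {p q : P} (hpq : G.Adj p q) : p ∈ S ∨ ∃ i, p = cr i := by
  rcases h.adj p q hpq with ⟨hp, _⟩ | ⟨hp, _⟩ | ⟨_, hp⟩
  · exact Or.inl hp
  · exact Or.inl hp
  · exact Or.inr hp

theorem mem_of_cr (h : Dr S G) {i : Fin 3} {q : P} (hq : G.Adj (cr i) q) : q ∈ S := by
  rcases h.adj _ q hq with ⟨hp, _⟩ | ⟨hp, _⟩ | ⟨hp, _⟩
  · exact absurd (h.op _ hp) (not_op_cr i)
  · exact absurd (h.op _ hp) (not_op_cr i)
  · exact hp

theorem fin (h : Dr S G) (p : P) : (G.neighborSet p).Finite := by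
  refine Set.Finite.subset (S.finite_toSet.union (Set.finite_range cr)) ?_
  intro q hq
  rcases h.mem_or (G.adj_symm hq) with h1 | ⟨i, rfl⟩
  · exact Or.inl h1
  · exact Or.inr ⟨i, rfl⟩

end Dr

/-! ### The empty drawing -/

theorem rl_nil : Rl 0 0 := by
  refine ⟨∅, ⊥, ⟨?_, ?_, ?_, ?_⟩, ?_, ?_⟩
  · intro p hp
    simp at hp
  · intro p q h
    exact h.elim
  · intro p q h
    exact h.elim
  · intro p q p' q' h
    exact h.elim
  · intro i
    have : (⊥ : SimpleGraph P).neighborSet (cr i) = ∅ := by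
      ext q
      simp
    rw [this]
    simp
  · simp

/-! ### Removal of an isolated vertex -/

theorem rl_drop {c : Fin 3 → ℕ} {D : Multiset ℕ} (h : Rl c (0 ::ₘ D)) : Rl c D := by
  classical
  obtain ⟨S, G, hS, hc, hD⟩ := h
  have h0 : (0 : ℕ) ∈ S.val.map (fun p => (G.neighborSet p).ncard) := by
    rw [hD]
    exact Multiset.mem_cons_self _ _
  obtain ⟨p, hp, hp0⟩ := Multiset.mem_map.mp h0
  have hpS : p ∈ S := hp
  have hemp : G.neighborSet p = ∅ := (Set.ncard_eq_zero (hS.fin p)).mp hp0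
  have hno : ∀ q, ¬ G.Adj p q := by
    intro q hq
    have : q ∈ G.neighborSet p := hq
    rw [hemp] at this
    exact this
  refine ⟨S.erase p, G, ⟨?_, ?_, ?_, hS.cross⟩, hc, ?_⟩
  · intro q hq
    exact hS.op q (Finset.mem_of_mem_erase hq)
  · intro a b hab
    have ha : a ≠ p := by
      rintro rfl
      exact hno _ hab
    have hb : b ≠ p := by
      rintro rfl
      exact hno _ (G.adj_symm hab)
    rcases hS.adj a b hab with ⟨h1, h2⟩ | ⟨h1, h2⟩ | ⟨h1, h2⟩
    · exact Or.inl ⟨Finset.mem_erase.mpr ⟨ha, h1⟩, Finset.mem_erase.mpr ⟨hb, h2⟩⟩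
    · exact Or.inr (Or.inl ⟨Finset.mem_erase.mpr ⟨ha, h1⟩, h2⟩)
    · exact Or.inr (Or.inr ⟨Finset.mem_erase.mpr ⟨hb, h1⟩, h2⟩)
  · intro a b hab w hw
    exact hS.avoid a b hab w (Finset.mem_of_mem_erase hw)
  · have h1 : S.val = p ::ₘ (S.erase p).val := by
      rw [Finset.erase_val, Multiset.cons_erase hp]
    rw [h1, Multiset.map_cons] at hD
    simp only [hp0] at hD
    exact (Multiset.cons_inj_right 0).mp hD

/-! ### Renaming of the corners -/

theorem rl_perm {c : Fin 3 → ℕ} {D : Multiset ℕ} (σ : Equiv.Perm (Fin 3)) (h : Rl c D) :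
    Rl (fun i => c (σ i)) D := by
  obtain ⟨S, G, hS, hc, hD⟩ := h
  let f : P ≃ P :=
    { toFun := fun p i => p (σ i)
      invFun := fun p i => p (σ.symm i)
      left_inv := fun p => by
        funext i
        simp
      right_inv := fun p => by
        funext i
        simp }
  have hfs : ∀ p : P, f.symm p = fun i => p (σ.symm i) := fun p => rfl
  have hcr : ∀ i, f.symm (cr i) = cr (σ i) := by
    intro i
    funext j
    rw [hfs]
    simp only [cr]
    by_cases hj : j = σ i
    · rw [if_pos hj, if_pos]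
      rw [hj]
      simp
    · rw [if_neg hj, if_neg]
      intro h
      apply hj
      rw [← h]
      simp
  have hcr' : ∀ p i, f.symm p = cr i → ∃ k, p = cr k := by
    intro p i hp
    refine ⟨σ.symm i, ?_⟩
    have : f.symm (cr (σ.symm i)) = cr i := by
      rw [hcr]
      simp
    exact f.symm.injective (hp.trans this.symm)
  have hsum : ∀ p : P, f p 0 + f p 1 + f p 2 = p 0 + p 1 + p 2 := by
    intro p
    have h1 : ∑ i, f p i = ∑ i, p i := Equiv.sum_comp σ p
    rw [Fin.sum_univ_three, Fin.sum_univ_three] at h1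
    exact h1
  have hop : ∀ p, Op p → Op (f p) := by
    intro p hp
    refine ⟨fun i => hp.1 (σ i), ?_⟩
    rw [hsum, hp.2]
  have hseg : ∀ p q s, f.symm (seg p q s) = seg (f.symm p) (f.symm q) s := fun p q s => rfl
  have hnb : ∀ p, (G.comap f.symm).neighborSet p = f '' (G.neighborSet (f.symm p)) := by
    intro p
    ext q
    constructor
    · intro hq
      exact ⟨f.symm q, hq, by simp⟩
    · rintro ⟨r, hr, rfl⟩
      show G.Adj (f.symm p) (f.symm (f r))
      simpa using hr
  refine ⟨S.map f.toEmbedding, G.comap f.symm, ⟨?_, ?_, ?_, ?_⟩, ?_, ?_⟩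
  · intro p hp
    obtain ⟨r, hr, rfl⟩ := Finset.mem_map.mp hp
    exact hop r (hS.op r hr)
  · intro p q hpq
    have hm : ∀ p, f.symm p ∈ S → p ∈ S.map f.toEmbedding := by
      intro p hp
      exact Finset.mem_map.mpr ⟨f.symm p, hp, by simp⟩
    rcases hS.adj _ _ hpq with ⟨h1, h2⟩ | ⟨h1, i, h2⟩ | ⟨h1, i, h2⟩
    · exact Or.inl ⟨hm p h1, hm q h2⟩
    · exact Or.inr (Or.inl ⟨hm p h1, hcr' q i h2⟩)
    · exact Or.inr (Or.inr ⟨hm q h1, hcr' p i h2⟩)
  · intro p q hpq w hw s h0 h1 heq
    obtain ⟨r, hr, rfl⟩ := Finset.mem_map.mp hw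
    apply hS.avoid _ _ hpq r hr s h0 h1
    rw [← hseg, heq]
    simp
  · intro p q p' q' hpq hpq' hne s t h0 h1 h0' h1' heq
    refine hS.cross _ _ _ _ hpq hpq' ?_ s t h0 h1 h0' h1' ?_
    · intro h2
      apply hne
      have h3 := congrArg (Sym2.map f) h2
      simpa using h3
    · rw [← hseg, ← hseg, heq]
  · intro i
    rw [hnb, Set.ncard_image_of_injective _ f.injective, hcr, hc]
  · rw [Finset.map_val, Multiset.map_map, ← hD]
    apply Multiset.map_congr rfl
    intro p _
    simp only [Function.comp]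
    rw [hnb, Set.ncard_image_of_injective _ f.injective]
    simp

end Pool.Agent.PDZ
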