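import Pool.Agent.Helper20_PDZ.Stack
import Pool.Agent.Helper18_PDS.Draw
import Pool.Agent.Helper42_PDS.Seq

/-!
# PDZ: planarity

`Fill 0 D` gives a planar graph with the degrees `D`; disjoint unions of planar graphs are planar.
-/

set_option autoImplicit false

namespace Pool.Agent.PDZ

open PDS

/-- the multiset `D` is the family of the degrees of a finite planar graph -/
def Pz (D : Multiset ℕ) : Prop :=
  ∃ (V : Type) (_ : Fintype V) (G : SimpleGraph V), PDS.Planar G ∧
    (Finset.univ : Finset V).val.map (PDS.dg G) = D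

/-- the projection of the barycentric coordinates to the plane -/
def pr (p : P) : ℝ × ℝ := (p 0, p 1)

theorem pr_inj {p q : P} (hp : p 0 + p 1 + p 2 = 1) (hq : q 0 + q 1 + q 2 = 1)
    (h : pr p = pr q) : p = q := by
  have h0 : p 0 = q 0 := congrArg Prod.fst h
  have h1 : p 1 = q 1 := congrArg Prod.snd h
  have h2 : p 2 = q 2 := by linarith
  funext i
  fin_cases i
  · exact h0
  · exact h1
  · exact h2

theorem seg_zero (p q : P) : seg p q 0 = p := by
  funext i
  simp [seg]

theorem seg_one (p q : P) : seg p q 1 = q := by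
  funext i
  simp [seg]

theorem seg_sum {p q : P} (hp : p 0 + p 1 + p 2 = 1) (hq : q 0 + q 1 + q 2 = 1) (s : ℝ) :
    seg p q s 0 + seg p q s 1 + seg p q s 2 = 1 := by
  simp only [seg]
  have : (1 - s) * p 0 + s * q 0 + ((1 - s) * p 1 + s * q 1) + ((1 - s) * p 2 + s * q 2) =
      (1 - s) * (p 0 + p 1 + p 2) + s * (q 0 + q 1 + q 2) := by ring
  rw [this, hp, hq]
  ring

theorem seg_inj {p q : P} (hpq : p ≠ q) : Function.Injective (seg p q) := by
  intro s t h
  have : ∃ i, p i ≠ q i := by
    by_contra hno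
    push Not at hno
    exact hpq (funext hno)
  obtain ⟨i, hi⟩ := this
  have h1 := congrFun h i
  simp only [seg] at h1
  have h2 : (s - t) * (q i - p i) = 0 := by linarith
  rcases mul_eq_zero.mp h2 with h3 | h3
  · linarith
  · exact absurd (by linarith) hi

theorem pz_of_fill {D : Multiset ℕ} (h : Fill 0 D) : Pz D := by
  obtain ⟨S, G, hS, hc, hD⟩ := h.real
  have hno : ∀ i q, ¬ G.Adj (cr i) q := by
    intro i q hq
    have h1 : G.neighborSet (cr i) = ∅ := (Set.ncard_eq_zero (hS.fin _)).mp (hc i)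
    have : q ∈ G.neighborSet (cr i) := hq
    rw [h1] at this
    exact this
  have hin : ∀ p q, G.Adj p q → p ∈ S := by
    intro p q hpq
    rcases hS.mem_or hpq with h1 | ⟨i, rfl⟩
    · exact h1
    · exact absurd hpq (hno i q)
  refine ⟨↥S, inferInstance, G.comap (fun v : ↥S => (v : P)), ⟨⟨fun v => pr v,
    fun u v s => pr (seg u v s), ?_, ?_, ?_, ?_, ?_, ?_, ?_⟩⟩, ?_⟩
  · intro u v huv
    exact Subtype.ext (pr_inj (hS.op u u.2).2 (hS.op v v.2).2 huv)
  · intro u v _
    apply Continuous.continuousOn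
    simp only [pr, seg]
    fun_prop
  · intro u v huv s _ t _ hst
    have hne : (u : P) ≠ v := G.ne_of_adj huv
    exact seg_inj hne (pr_inj (seg_sum (hS.op u u.2).2 (hS.op v v.2).2 s)
      (seg_sum (hS.op u u.2).2 (hS.op v v.2).2 t) hst)
  · intro u v _
    rw [seg_zero]
  · intro u v _
    rw [seg_one]
  · intro u v w huv t h0 h1 heq
    exact hS.avoid u v huv w w.2 t h0 h1
      (pr_inj (seg_sum (hS.op u u.2).2 (hS.op v v.2).2 t) (hS.op w w.2).2 heq)
  · intro u v u' v' huv huv' hne t t' h0 h1 h0' h1' heq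
    refine hS.cross u v u' v' huv huv' ?_ t t' h0 h1 h0' h1'
      (pr_inj (seg_sum (hS.op u u.2).2 (hS.op v v.2).2 t)
        (seg_sum (hS.op u' u'.2).2 (hS.op v' v'.2).2 t') heq)
    intro h2
    apply hne
    rw [Sym2.eq_iff] at h2 ⊢
    rcases h2 with ⟨h3, h4⟩ | ⟨h3, h4⟩
    · exact Or.inl ⟨Subtype.ext h3, Subtype.ext h4⟩
    · exact Or.inr ⟨Subtype.ext h3, Subtype.ext h4⟩
  · rw [← hD]
    have h1 : ∀ v : ↥S, PDS.dg (G.comap (fun v : ↥S => (v : P))) v =
        (G.neighborSet (v : P)).ncard := by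
      intro v
      unfold PDS.dg
      have h2 : G.neighborSet (v : P) =
          (fun w : ↥S => (w : P)) '' ((G.comap (fun v : ↥S => (v : P))).neighborSet v) := by
        ext q
        constructor
        · intro hq
          exact ⟨⟨q, hin q v (G.adj_symm hq)⟩, hq, rfl⟩
        · rintro ⟨w, hw, rfl⟩
          exact hw
      rw [h2, Set.ncard_image_of_injective _ Subtype.val_injective]
    have h3 : (Finset.univ : Finset ↥S).val.map (fun v : ↥S => (v : P)) = S.val := by
      rw [Finset.univ_eq_attach, Finset.attach_val]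
      exact Multiset.attach_map_val _
    rw [← h3, Multiset.map_map]
    exact Multiset.map_congr rfl (fun v _ => h1 v)

/-! ### Disjoint unions -/

/-- a homeomorphism of the plane onto a half plane -/
noncomputable def hp (ε : ℝ) (x : ℝ × ℝ) : ℝ × ℝ := (ε * Real.exp x.1, x.2)

theorem hp_inj {ε : ℝ} (h : ε ≠ 0) : Function.Injective (hp ε) := by
  intro x y hxy
  have h1 : ε * Real.exp x.1 = ε * Real.exp y.1 := congrArg Prod.fst hxy
  have h2 : (hp ε x).2 = (hp ε y).2 := congrArg Prod.snd hxy
  have h2 : x.2 = y.2 := h2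
  exact Prod.ext (Real.exp_injective (mul_left_cancel₀ h h1)) h2

theorem hp_cont (ε : ℝ) : Continuous (hp ε) := by
  unfold hp
  fun_prop

theorem hp_ne (x y : ℝ × ℝ) : hp 1 x ≠ hp (-1) y := by
  intro h
  have h1 : 1 * Real.exp x.1 = -1 * Real.exp y.1 := congrArg Prod.fst h
  have h2 := Real.exp_pos x.1
  have h3 := Real.exp_pos y.1
  linarith

theorem planar_un {V W : Type} (G : SimpleGraph V) (H : SimpleGraph W) (hG : PDS.Planar G)
    (hH : PDS.Planar H) : PDS.Planar (PDS.H18.un G H) := by
  obtain ⟨A⟩ := hG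
  obtain ⟨B⟩ := hH
  have i1 : Function.Injective (hp 1) := hp_inj one_ne_zero
  have i2 : Function.Injective (hp (-1)) := hp_inj (by norm_num)
  refine ⟨⟨Sum.elim (fun v => hp 1 (A.pt v)) (fun w => hp (-1) (B.pt w)),
    fun a b => match a, b with
      | Sum.inl a, Sum.inl b => fun t => hp 1 (A.arc a b t)
      | Sum.inr a, Sum.inr b => fun t => hp (-1) (B.arc a b t)
      | _, _ => fun _ => 0, ?_, ?_, ?_, ?_, ?_, ?_, ?_⟩⟩
  · rintro (a | a) (b | b) h
    · exact congrArg Sum.inl (A.pt_inj (i1 h))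
    · exact absurd h (hp_ne _ _)
    · exact absurd h.symm (hp_ne _ _)
    · exact congrArg Sum.inr (B.pt_inj (i2 h))
  · rintro (a | a) (b | b) h
    · exact (hp_cont 1).comp_continuousOn (A.cont a b h)
    · exact h.elim
    · exact h.elim
    · exact (hp_cont (-1)).comp_continuousOn (B.cont a b h)
  · rintro (a | a) (b | b) h s hs t ht hst
    · exact A.inj a b h hs ht (i1 hst)
    · exact h.elim
    · exact h.elim
    · exact B.inj a b h hs ht (i2 hst)
  · rintro (a | a) (b | b) h
    · exact congrArg (hp 1) (A.left a b h)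
    · exact h.elim
    · exact h.elim
    · exact congrArg (hp (-1)) (B.left a b h)
  · rintro (a | a) (b | b) h
    · exact congrArg (hp 1) (A.right a b h)
    · exact h.elim
    · exact h.elim
    · exact congrArg (hp (-1)) (B.right a b h)
  · rintro (a | a) (b | b) (c | c) h t h0 h1 heq
    all_goals first
      | exact h.elim
      | exact A.avoid a b c h t h0 h1 (i1 heq)
      | exact B.avoid a b c h t h0 h1 (i2 heq)
      | exact hp_ne _ _ heq
      | exact hp_ne _ _ heq.symm
  · rintro (a | a) (b | b) (c | c) (d | d) h h' hne t t' h0 h1 h0' h1' heq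
    all_goals first
      | exact h.elim
      | exact h'.elim
      | (refine A.cross a b c d h h' (fun h2 => hne ?_) t t' h0 h1 h0' h1' (i1 heq)
         exact congrArg (Sym2.map Sum.inl) h2)
      | (refine B.cross a b c d h h' (fun h2 => hne ?_) t t' h0 h1 h0' h1' (i2 heq)
         exact congrArg (Sym2.map Sum.inr) h2)
      | exact hp_ne _ _ heq
      | exact hp_ne _ _ heq.symm

theorem pz_add {D E : Multiset ℕ} (hD : Pz D) (hE : Pz E) : Pz (D + E) := by
  obtain ⟨V, fV, G, hG, rfl⟩ := hD
  obtain ⟨W, fW, H, hH, rfl⟩ := hE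
  refine ⟨V ⊕ W, inferInstance, PDS.H18.un G H, planar_un G H hG hH, ?_⟩
  have : (Finset.univ : Finset (V ⊕ W)).val
      = (Finset.univ : Finset V).val.map Sum.inl + (Finset.univ : Finset W).val.map Sum.inr := by
    rw [← Finset.univ_disjSum_univ]
    rfl
  rw [this, Multiset.map_add, Multiset.map_map, Multiset.map_map]
  congr 1
  · exact Multiset.map_congr rfl (fun v _ => PDS.H18.dg_inl G H v)
  · exact Multiset.map_congr rfl (fun v _ => PDS.H18.dg_inr G H v)

theorem pz_of_rz {D : Multiset ℕ} (h : PDS.Rz D) : Pz D := by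
  obtain ⟨V, fV, G, hG, hD⟩ := h
  exact ⟨V, fV, G, PDS.H18.draw V G hG, hD⟩

end Pool.Agent.PDZ
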