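import Pool.Agent.Helper20_PDZ.Geo

/-!
# PDZ: a new vertex in a triangle
-/

set_option autoImplicit false

namespace Pool.Agent.PDZ

/-- the union of three drawings in the subtriangles and a star -/
def un (e : Fin 3 → ℕ) (G : Fin 3 → SimpleGraph P) : SimpleGraph P where
  Adj p q := (∃ i a b, (G i).Adj a b ∧ L i a = p ∧ L i b = q) ∨
    ∃ j, e j = 1 ∧ ((p = bc ∧ q = cr j) ∨ (p = cr j ∧ q = bc))
  symm := ⟨by
    rintro p q (⟨i, a, b, h, ha, hb⟩ | ⟨j, hj, h | h⟩)
    · exact Or.inl ⟨i, b, a, (G i).adj_symm h, hb, ha⟩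
    · exact Or.inr ⟨j, hj, Or.inr ⟨h.2, h.1⟩⟩
    · exact Or.inr ⟨j, hj, Or.inl ⟨h.2, h.1⟩⟩⟩
  loopless := ⟨by
    rintro p (⟨i, a, b, h, ha, hb⟩ | ⟨j, hj, h | h⟩)
    · have : a = b := L_inj i (ha.trans hb.symm)
      subst this
      exact (G i).irrefl h
    · exact bc_ne_cr j (h.1.symm.trans h.2)
    · exact bc_ne_cr j (h.2.symm.trans h.1)⟩

/-- the map of the subtriangle as an embedding -/
noncomputable def Le (i : Fin 3) : P ↪ P := ⟨L i, L_inj i⟩

section

variable {e : Fin 3 → ℕ} {S : Fin 3 → Finset P} {G : Fin 3 → SimpleGraph P}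

theorem un_star (p q : P) {j : Fin 3} (h : (p = bc ∧ q = cr j) ∨ (p = cr j ∧ q = bc)) {s : ℝ}
    (h0 : 0 < s) (h1 : s < 1) :
    ∃ s', 0 < s' ∧ s' < 1 ∧ seg p q s = seg bc (cr j) s' := by
  rcases h with ⟨rfl, rfl⟩ | ⟨rfl, rfl⟩
  · exact ⟨s, h0, h1, rfl⟩
  · exact ⟨1 - s, by linarith, by linarith, seg_symm _ _ _⟩

theorem nb_L (hS : ∀ i, Dr (S i) (G i)) {i : Fin 3} {p : P} (hp : p ∈ S i) :
    (un e G).neighborSet (L i p) = L i '' ((G i).neighborSet p) := by
  have hop := (hS i).op p hp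
  ext q
  constructor
  · rintro (⟨i', a, b, h, ha, hb⟩ | ⟨j, hj, h | h⟩)
    · rcases (hS i').mem_or h with haS | ⟨k, rfl⟩
      · have h1 : Rg i' (L i' a) := rg_L ((hS i').op a haS)
        rw [ha] at h1
        have h2 : i' = i := rg_unique h1 (rg_L hop)
        subst h2
        have h3 : a = p := L_inj i' ha
        subst h3
        exact ⟨b, h, hb⟩
      · exfalso
        by_cases hk : k = i'
        · subst hk
          rw [L_cr_self] at ha
          exact not_rg_bc i (ha ▸ rg_L hop)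
        · rw [L_cr_ne hk] at ha
          exact not_op_cr k (ha ▸ op_L hop)
    · exact absurd (rg_L (i := i) hop) (h.1 ▸ not_rg_bc i)
    · exact absurd (op_L (i := i) hop) (h.1 ▸ not_op_cr j)
  · rintro ⟨b, hb, rfl⟩
    exact Or.inl ⟨i, p, b, hb, rfl, rfl⟩

theorem nb_cr (hS : ∀ i, Dr (S i) (G i)) (j : Fin 3) :
    (un e G).neighborSet (cr j) = (L (j + 1) '' ((G (j + 1)).neighborSet (cr j)) ∪
      L (j + 2) '' ((G (j + 2)).neighborSet (cr j))) ∪ {q | e j = 1 ∧ q = bc} := by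
  have h12 : ∀ j i : Fin 3, j ≠ i → i = j + 1 ∨ i = j + 2 := by decide
  have h1 : ∀ j : Fin 3, j ≠ j + 1 := by decide
  have h2 : ∀ j : Fin 3, j ≠ j + 2 := by decide
  ext q
  constructor
  · rintro (⟨i', a, b, h, ha, hb⟩ | ⟨k, hk, h | h⟩)
    · left
      rcases (hS i').mem_or h with haS | ⟨k, rfl⟩
      · exfalso
        exact not_op_cr j (ha ▸ op_L ((hS i').op a haS))
      · have hk : k ≠ i' := by
          rintro rfl
          rw [L_cr_self] at ha
          exact bc_ne_cr j ha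
        rw [L_cr_ne hk] at ha
        have : k = j := cr_inj ha
        subst this
        rcases h12 k i' hk with rfl | rfl
        · exact Or.inl ⟨b, h, hb⟩
        · exact Or.inr ⟨b, h, hb⟩
    · exact absurd h.1.symm (bc_ne_cr j)
    · right
      have : k = j := cr_inj h.1.symm
      subst this
      exact ⟨hk, h.2⟩
  · rintro ((⟨b, hb, rfl⟩ | ⟨b, hb, rfl⟩) | ⟨hj, rfl⟩)
    · exact Or.inl ⟨j + 1, cr j, b, hb, L_cr_ne (h1 j), rfl⟩
    · exact Or.inl ⟨j + 2, cr j, b, hb, L_cr_ne (h2 j), rfl⟩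
    · exact Or.inr ⟨j, hj, Or.inr ⟨rfl, rfl⟩⟩

theorem nb_bc (hS : ∀ i, Dr (S i) (G i)) :
    (un e G).neighborSet bc = (((L 0 '' ((G 0).neighborSet (cr 0))) ∪
      (L 1 '' ((G 1).neighborSet (cr 1)))) ∪ (L 2 '' ((G 2).neighborSet (cr 2)))) ∪
        cr '' {j | e j = 1} := by
  ext q
  constructor
  · rintro (⟨i', a, b, h, ha, hb⟩ | ⟨k, hk, h | h⟩)
    · left
      rcases (hS i').mem_or h with haS | ⟨k, rfl⟩
      · exfalso
        exact not_rg_bc i' (ha ▸ rg_L ((hS i').op a haS))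
      · have hk : k = i' := by
          by_contra hk
          rw [L_cr_ne hk] at ha
          exact bc_ne_cr k ha.symm
        subst hk
        have h3 : ∀ k : Fin 3, k = 0 ∨ k = 1 ∨ k = 2 := by decide
        rcases h3 k with rfl | rfl | rfl
        · exact Or.inl (Or.inl ⟨b, h, hb⟩)
        · exact Or.inl (Or.inr ⟨b, h, hb⟩)
        · exact Or.inr ⟨b, h, hb⟩
    · exact Or.inr ⟨k, hk, h.2.symm⟩
    · exact absurd h.1 (bc_ne_cr k)
  · rintro (((⟨b, hb, rfl⟩ | ⟨b, hb, rfl⟩) | ⟨b, hb, rfl⟩) | ⟨k, hk, rfl⟩)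
    · exact Or.inl ⟨0, cr 0, b, hb, L_cr_self 0, rfl⟩
    · exact Or.inl ⟨1, cr 1, b, hb, L_cr_self 1, rfl⟩
    · exact Or.inl ⟨2, cr 2, b, hb, L_cr_self 2, rfl⟩
    · exact Or.inr ⟨k, hk, Or.inl ⟨rfl, rfl⟩⟩

theorem img_rg (hS : ∀ i, Dr (S i) (G i)) {i j : Fin 3} {q : P}
    (hq : q ∈ L i '' ((G i).neighborSet (cr j))) : Rg i q ∧ Op q := by
  obtain ⟨b, hb, rfl⟩ := hq
  have hbS : b ∈ S i := (hS i).mem_of_cr hb
  exact ⟨rg_L ((hS i).op b hbS), op_L ((hS i).op b hbS)⟩

theorem img_disj (hS : ∀ i, Dr (S i) (G i)) {i i' j j' : Fin 3} (h : i ≠ i') :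
    Disjoint (L i '' ((G i).neighborSet (cr j))) (L i' '' ((G i').neighborSet (cr j'))) := by
  rw [Set.disjoint_left]
  intro q hq hq'
  exact h (rg_unique (img_rg hS hq).1 (img_rg hS hq').1)

theorem rl_stack (e : Fin 3 → ℕ) (c : Fin 3 → Fin 3 → ℕ) (D : Fin 3 → Multiset ℕ)
    (he : ∀ i, e i ≤ 1) (h : ∀ i, Rl (c i) (D i)) :
    Rl (fun j => c (j + 1) j + c (j + 2) j + e j)
      ((c 0 0 + c 1 1 + c 2 2 + (e 0 + e 1 + e 2)) ::ₘ (D 0 + D 1 + D 2)) := by
  choose S G hS hc hD using h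
  have fn : ∀ i j, (L i '' ((G i).neighborSet (cr j))).Finite := fun i j =>
    ((hS i).fin (cr j)).image _
  have ei : ∀ i, e i = 0 ∨ e i = 1 := by
    intro i
    have := he i
    omega
  have hrg : ∀ i, ∀ q ∈ (S i).map (Le i), Rg i q ∧ Op q := by
    intro i q hq
    obtain ⟨p, hp, rfl⟩ := Finset.mem_map.mp hq
    exact ⟨rg_L ((hS i).op p hp), op_L ((hS i).op p hp)⟩
  have hd : ∀ i j, i ≠ j → Disjoint ((S i).map (Le i)) ((S j).map (Le j)) := by
    intro i j hij
    rw [Finset.disjoint_left]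
    intro q hq hq'
    exact hij (rg_unique (hrg i q hq).1 (hrg j q hq').1)
  have hd01 : Disjoint ((S 0).map (Le 0)) ((S 1).map (Le 1)) := hd 0 1 (by decide)
  have hd2 : Disjoint (((S 0).map (Le 0)).disjUnion ((S 1).map (Le 1)) hd01)
      ((S 2).map (Le 2)) := by
    rw [Finset.disjoint_left]
    intro q hq hq'
    rcases Finset.mem_disjUnion.mp hq with h | h
    · exact Finset.disjoint_left.mp (hd 0 2 (by decide)) h hq'
    · exact Finset.disjoint_left.mp (hd 1 2 (by decide)) h hq'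
  obtain ⟨T, hT⟩ : ∃ T, T = (((S 0).map (Le 0)).disjUnion ((S 1).map (Le 1)) hd01).disjUnion
      ((S 2).map (Le 2)) hd2 := ⟨_, rfl⟩
  have hmem : ∀ q, q ∈ T ↔ ∃ i, ∃ p ∈ S i, L i p = q := by
    intro q
    rw [hT, Finset.mem_disjUnion, Finset.mem_disjUnion, Finset.mem_map, Finset.mem_map,
      Finset.mem_map]
    constructor
    · rintro ((⟨p, hp, rfl⟩ | ⟨p, hp, rfl⟩) | ⟨p, hp, rfl⟩)
      · exact ⟨0, p, hp, rfl⟩
      · exact ⟨1, p, hp, rfl⟩
      · exact ⟨2, p, hp, rfl⟩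
    · rintro ⟨i, p, hp, rfl⟩
      have h3 : ∀ i : Fin 3, i = 0 ∨ i = 1 ∨ i = 2 := by decide
      rcases h3 i with rfl | rfl | rfl
      · exact Or.inl (Or.inl ⟨p, hp, rfl⟩)
      · exact Or.inl (Or.inr ⟨p, hp, rfl⟩)
      · exact Or.inr ⟨p, hp, rfl⟩
  have hbT : bc ∉ T := by
    intro hb
    obtain ⟨i, p, hp, hpb⟩ := (hmem bc).mp hb
    exact not_rg_bc i (hpb ▸ rg_L ((hS i).op p hp))
  refine ⟨Finset.cons bc T hbT, un e G, ⟨?_, ?_, ?_, ?_⟩, ?_, ?_⟩
  · intro p hp
    rcases Finset.mem_cons.mp hp with rfl | hp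
    · exact op_bc
    · obtain ⟨i, a, ha, rfl⟩ := (hmem p).mp hp
      exact op_L ((hS i).op a ha)
  · have hin : ∀ i a, a ∈ S i → L i a ∈ Finset.cons bc T hbT := fun i a ha =>
      Finset.mem_cons.mpr (Or.inr ((hmem _).mpr ⟨i, a, ha, rfl⟩))
    have hbin : bc ∈ Finset.cons bc T hbT := Finset.mem_cons.mpr (Or.inl rfl)
    have hcr : ∀ i k, L i (cr k) ∈ Finset.cons bc T hbT ∨ ∃ l, L i (cr k) = cr l := by
      intro i k
      by_cases hk : k = i
      · left
        rw [hk, L_cr_self]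
        exact hbin
      · right
        exact ⟨k, L_cr_ne hk⟩
    rintro p q (⟨i, a, b, h, rfl, rfl⟩ | ⟨j, hj, h | h⟩)
    · rcases (hS i).adj a b h with ⟨ha, hb⟩ | ⟨ha, k, rfl⟩ | ⟨hb, k, rfl⟩
      · exact Or.inl ⟨hin i a ha, hin i b hb⟩
      · rcases hcr i k with h1 | h1
        · exact Or.inl ⟨hin i a ha, h1⟩
        · exact Or.inr (Or.inl ⟨hin i a ha, h1⟩)
      · rcases hcr i k with h1 | h1
        · exact Or.inl ⟨h1, hin i b hb⟩
        · exact Or.inr (Or.inr ⟨hin i b hb, h1⟩)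
    · exact Or.inr (Or.inl ⟨h.1 ▸ hbin, j, h.2⟩)
    · exact Or.inr (Or.inr ⟨h.2 ▸ hbin, j, h.1⟩)
  · rintro p q (⟨i, a, b, h, rfl, rfl⟩ | ⟨j, hj, h⟩) w hw s h0 h1 heq
    · have hop := (hS i).seg_op h h0 h1
      rw [← L_seg] at heq
      rcases Finset.mem_cons.mp hw with rfl | hw
      · exact not_rg_bc i (heq ▸ rg_L hop)
      · obtain ⟨i', a', ha', rfl⟩ := (hmem w).mp hw
        have h2 : i = i' := rg_unique (rg_L hop) (heq ▸ rg_L ((hS i').op a' ha'))
        subst h2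
        exact (hS i).avoid a b h a' ha' s h0 h1 (L_inj i heq)
    · obtain ⟨s', h0', h1', hs'⟩ := un_star p q h h0 h1
      rw [hs'] at heq
      rcases Finset.mem_cons.mp hw with rfl | hw
      · obtain ⟨_, _, h3⟩ := seg_bc_cr (j := j) h0' h1'
        have h4 : ∀ i : Fin 3, i + 1 ≠ i := by decide
        have h5 := h3 (j + 1) (h4 j)
        rw [heq] at h5
        exact lt_irrefl _ h5
      · obtain ⟨i', a', ha', rfl⟩ := (hmem w).mp hw
        exact not_rg_star h0' h1' (heq ▸ rg_L ((hS i').op a' ha'))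
  · rintro p q p' q' (⟨i, a, b, h, rfl, rfl⟩ | ⟨j, hj, h⟩)
      (⟨i', a', b', h', rfl, rfl⟩ | ⟨j', hj', h'⟩) hne s t h0 h1 h0' h1' heq
    · have hop := (hS i).seg_op h h0 h1
      have hop' := (hS i').seg_op h' h0' h1'
      rw [← L_seg, ← L_seg] at heq
      have h2 : i = i' := rg_unique (rg_L hop) (heq ▸ rg_L hop')
      subst h2
      refine (hS i).cross a b a' b' h h' ?_ s t h0 h1 h0' h1' (L_inj i heq)
      intro h3
      apply hne
      have h4 := congrArg (Sym2.map (L i)) h3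
      simpa using h4
    · have hop := (hS i).seg_op h h0 h1
      obtain ⟨s', h2, h3, hs'⟩ := un_star p' q' h' h0' h1'
      rw [← L_seg, hs'] at heq
      exact not_rg_star h2 h3 (heq ▸ rg_L hop)
    · have hop' := (hS i').seg_op h' h0' h1'
      obtain ⟨s', h2, h3, hs'⟩ := un_star p q h h0 h1
      rw [← L_seg, hs'] at heq
      exact not_rg_star h2 h3 (heq ▸ rg_L hop')
    · obtain ⟨s', h2, h3, hs'⟩ := un_star p q h h0 h1
      obtain ⟨t', h2', h3', ht'⟩ := un_star p' q' h' h0' h1'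
      rw [hs', ht'] at heq
      have h4 : j = j' := star_unique h2 h3 h2' h3' heq
      subst h4
      apply hne
      rcases h with ⟨rfl, rfl⟩ | ⟨rfl, rfl⟩ <;> rcases h' with ⟨rfl, rfl⟩ | ⟨rfl, rfl⟩
      · rfl
      · exact Sym2.eq_swap
      · exact Sym2.eq_swap
      · rfl
  · intro j
    have h12 : ∀ j : Fin 3, j + 1 ≠ j + 2 := by decide
    have hbf : ({q : P | e j = 1 ∧ q = bc} : Set P).Finite :=
      Set.Finite.subset (Set.finite_singleton bc) (fun q hq => hq.2)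
    rw [nb_cr hS, Set.ncard_union_eq ?_ ((fn _ _).union (fn _ _)) hbf,
      Set.ncard_union_eq (img_disj hS (h12 j)) (fn _ _) (fn _ _),
      Set.ncard_image_of_injective _ (L_inj _), Set.ncard_image_of_injective _ (L_inj _), hc, hc]
    · congr 1
      rcases ei j with h | h
      · rw [h]
        simp
      · have : ({q : P | e j = 1 ∧ q = bc} : Set P) = {bc} := by
          ext q
          simp [h]
        rw [this, h]
        simp
    · rw [Set.disjoint_left]
      rintro q (hq | hq) ⟨_, rfl⟩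
      · exact not_rg_bc _ (img_rg hS hq).1
      · exact not_rg_bc _ (img_rg hS hq).1
  · have hval : (Finset.cons bc T hbT).val =
        bc ::ₘ ((S 0).val.map (L 0) + (S 1).val.map (L 1) + (S 2).val.map (L 2)) := by
      rw [Finset.cons_val, hT]
      rfl
    rw [hval, Multiset.map_cons, Multiset.map_add, Multiset.map_add, Multiset.map_map,
      Multiset.map_map, Multiset.map_map]
    have hm : ∀ i, (S i).val.map ((fun p => ((un e G).neighborSet p).ncard) ∘ L i) = D i := by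
      intro i
      rw [← hD i]
      apply Multiset.map_congr rfl
      intro p hp
      simp only [Function.comp]
      rw [nb_L hS hp, Set.ncard_image_of_injective _ (L_inj i)]
    rw [hm, hm, hm]
    congr 1
    have hcf : (cr '' {j | e j = 1}).Finite := (Set.toFinite _).image _
    have hd1 : Disjoint ((((L 0 '' ((G 0).neighborSet (cr 0))) ∪
      (L 1 '' ((G 1).neighborSet (cr 1)))) ∪ (L 2 '' ((G 2).neighborSet (cr 2)))))
        (cr '' {j | e j = 1}) := by
      rw [Set.disjoint_left]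
      rintro q ((hq | hq) | hq) ⟨k, _, rfl⟩
      · exact not_op_cr k (img_rg hS hq).2
      · exact not_op_cr k (img_rg hS hq).2
      · exact not_op_cr k (img_rg hS hq).2
    have hd2 : Disjoint ((L 0 '' ((G 0).neighborSet (cr 0))) ∪
      (L 1 '' ((G 1).neighborSet (cr 1)))) (L 2 '' ((G 2).neighborSet (cr 2))) := by
      rw [Set.disjoint_union_left]
      exact ⟨img_disj hS (by decide), img_disj hS (by decide)⟩
    rw [nb_bc hS, Set.ncard_union_eq hd1 (((fn _ _).union (fn _ _)).union (fn _ _)) hcf,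
      Set.ncard_union_eq hd2 ((fn _ _).union (fn _ _)) (fn _ _),
      Set.ncard_union_eq (img_disj hS (by decide)) (fn _ _) (fn _ _),
      Set.ncard_image_of_injective _ (L_inj _), Set.ncard_image_of_injective _ (L_inj _),
      Set.ncard_image_of_injective _ (L_inj _), Set.ncard_image_of_injective _ cr_inj, hc, hc, hc]
    congr 1
    have hset : ({j | e j = 1} : Set (Fin 3)) = ↑(Finset.univ.filter fun j : Fin 3 => e j = 1) := by
      ext j
      simp
    rw [hset, Set.ncard_coe_finset, Finset.card_filter, Fin.sum_univ_three]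
    have hh : ∀ i, (if e i = 1 then 1 else 0) = e i := by
      intro i
      rcases ei i with h | h <;> simp [h]
    rw [hh, hh, hh]

end

/-- every pair of the family `Fill` is realized -/
theorem Fill.real {c : Fin 3 → ℕ} {D : Multiset ℕ} (h : Fill c D) : Rl c D := by
  induction h with
  | nil => exact rl_nil
  | perm c D σ _ ih => exact rl_perm σ ih
  | drop c D _ ih => exact rl_drop ih
  | stack e c D he _ ih => exact rl_stack e c D he ih

end Pool.Agent.PDZ
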