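import Pool.Agent.Helper20_PDZ.Units
import Pool.Agent.PDZ.StmtT

/-!
# PDZ: the tube
-/

set_option autoImplicit false

namespace Pool.Agent.PDZ

open Multiset

/-- filled faces `{k, k + 1, k + 3}` -/
def al (t k : ℕ) : ℕ := if k % 6 < t then 1 else 0

/-- filled faces `{k, k + 2, k + 3}` -/
def be (t k : ℕ) : ℕ := if (k + 4) % 6 < t then 1 else 0

theorem al_le (t k : ℕ) : al t k ≤ 1 := by
  unfold al
  split_ifs <;> omega

theorem be_le (t k : ℕ) : be t k ≤ 1 := by
  unfold be
  split_ifs <;> omega

/-- every vertex is in exactly one face of every class -/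
theorem classes (t k : ℕ) (ht : t ≤ 6) :
    al t k + al t (k + 2) + al t (k + 3) + be t k + be t (k + 1) + be t (k + 3) = t := by
  have key : ∀ t : Fin 7, ∀ r : Fin 6,
      (if (r : ℕ) % 6 < (t : ℕ) then 1 else 0) + (if ((r : ℕ) + 2) % 6 < (t : ℕ) then 1 else 0) +
      (if ((r : ℕ) + 3) % 6 < (t : ℕ) then 1 else 0) + (if ((r : ℕ) + 4) % 6 < (t : ℕ) then 1 else 0) +
      (if ((r : ℕ) + 5) % 6 < (t : ℕ) then 1 else 0) +
      (if ((r : ℕ) + 7) % 6 < (t : ℕ) then 1 else 0) = (t : ℕ) := by decide
  have h := key ⟨t, by omega⟩ ⟨k % 6, Nat.mod_lt _ (by omega)⟩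
  simp only at h
  unfold al be
  have e1 : k % 6 % 6 = k % 6 := by omega
  have e2 : (k % 6 + 2) % 6 = (k + 2) % 6 := by omega
  have e3 : (k % 6 + 3) % 6 = (k + 3) % 6 := by omega
  have e4 : (k % 6 + 4) % 6 = (k + 4) % 6 := by omega
  have e5 : (k % 6 + 5) % 6 = (k + 1 + 4) % 6 := by omega
  have e6 : (k % 6 + 7) % 6 = (k + 3 + 4) % 6 := by omega
  rw [e1, e2, e3, e4, e5, e6] at h
  exact h

/-- the inner degrees of the corners -/
def xs (t k : ℕ) : ℕ := 1 + al t k + be t k
def ys (t k : ℕ) : ℕ := 2 + al t k + al t (k + 1) + be t (k + 1)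
def zs (t k : ℕ) : ℕ := 3 + be t k + al t (k + 1) + al t (k + 2) + be t (k + 2)

/-- the face `B`, hubs first -/
theorem faceB (t k a b c d p : ℕ) (h : 2 * a + (b + c + d) = p)
    (h0 : be t k = 0 → b + c + d = 0) :
    Fil (be t k + p) (be t k + p) (be t k) (replicate (be t k) 3 + ext a b c d) := by
  have h1 := be_le t k
  rcases Nat.eq_zero_or_pos (be t k) with h2 | h2
  · have h3 := h0 h2
    have hb : b = 0 := by omega
    have hc : c = 0 := by omega
    have hd : d = 0 := by omega
    subst hb hc hd
    rw [h2]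
    have h4 := fext0 a p (by omega)
    simpa using h4
  · have h3 : be t k = 1 := by omega
    rw [h3]
    have h4 := fext1 a b c d p h
    exact h4

/-- the face `A` -/
theorem faceA (t k : ℕ) : Fil (al t k) (al t k) (al t k) (replicate (al t k) 3) := by
  have h1 := al_le t k
  rcases Nat.eq_zero_or_pos (al t k) with h2 | h2
  · rw [h2]
    exact fil_nil
  · have h3 : al t k = 1 := by omega
    rw [h3]
    exact ft

/-- one step of the tube -/
theorem step {t k r : ℕ} {D : Multiset ℕ} (ht : t ≤ 6) (a b c d p : ℕ)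
    (h : 2 * a + (b + c + d) = p) (h0 : t < 6 → b + c + d = 0)
    (hD : Fil (xs t (k + 1)) (ys t (k + 1)) (zs t (k + 1) + r) D) :
    Fil (xs t k) (ys t k) (zs t k + p)
      ((6 + t + r + p) ::ₘ (D + replicate (al t k + be t k) 3 + ext a b c d)) := by
  have hb0 : be t k = 0 → b + c + d = 0 := by
    intro h1
    apply h0
    unfold be at h1
    split_ifs at h1
    omega
  have hB := fil_rot (fil_rot (faceB t k a b c d p h hb0))
  have hX := fil_rot (fil_rot hD)
  have hs := fil_stack 1 1 1 (by omega) (by omega) (by omega) hX hB (faceA t k)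
  have hc := classes t k ht
  have a2 : al t (k + 1 + 1) = al t (k + 2) := rfl
  have a3 : al t (k + 1 + 2) = al t (k + 3) := rfl
  have b2 : be t (k + 1 + 1) = be t (k + 2) := rfl
  have b3 : be t (k + 1 + 2) = be t (k + 3) := rfl
  have e1 : be t k + al t k + 1 = xs t k := by
    unfold xs
    omega
  have e2 : xs t (k + 1) + al t k + 1 = ys t k := by
    unfold xs ys
    omega
  have e3 : ys t (k + 1) + (be t k + p) + 1 = zs t k + p := by
    unfold ys zs
    omega
  have e4 : zs t (k + 1) + r + (be t k + p) + al t k + (1 + 1 + 1) = 6 + t + r + p := by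
    unfold zs
    omega
  rw [e1, e2, e3, e4] at hs
  have e5 : D + (replicate (be t k) 3 + ext a b c d) + replicate (al t k) 3 =
      D + replicate (al t k + be t k) 3 + ext a b c d := by
    rw [replicate_add]
    abel
  rw [e5] at hs
  exact hs

/-! ### Units -/

/-- the units along a list of degrees -/
def us (t : ℕ) : ℕ → List ℕ → ℕ
  | _, [] => 0
  | r, v :: l => (v - (6 + t) - r) + us t (v - (6 + t) - r) l

/-- the number of the odd units -/
def os (t : ℕ) : ℕ → List ℕ → ℕ
  | _, [] => 0
  | r, v :: l => (v - (6 + t) - r) % 2 + os t (v - (6 + t) - r) l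

/-- the last unit -/
def lst (t : ℕ) : ℕ → List ℕ → ℕ
  | r, [] => r
  | r, v :: l => lst t (v - (6 + t) - r) l

/-- the number of the filled faces in `m` steps -/
def fs (t k : ℕ) : ℕ → ℕ
  | 0 => 0
  | m + 1 => fs t k m + (al t (k + m) + be t (k + m))

theorem os_le (t : ℕ) (l : List ℕ) : ∀ r, os t r l ≤ us t r l := by
  induction l with
  | nil =>
    intro r
    exact le_refl _
  | cons v l ih =>
    intro r
    have h := ih (v - (6 + t) - r)
    simp only [os, us]
    omega

theorem os_mod (t : ℕ) (l : List ℕ) : ∀ r, us t r l % 2 = os t r l % 2 := by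
  induction l with
  | nil =>
    intro r
    rfl
  | cons v l ih =>
    intro r
    have h := ih (v - (6 + t) - r)
    simp only [os, us]
    omega

theorem us_sum (t : ℕ) (l : List ℕ) : ∀ r, l.Pairwise (· ≤ ·) → (∀ v ∈ l, 6 + t + r ≤ v) →
    (l.map fun v => v - (6 + t)).sum + lst t r l = r + 2 * us t r l := by
  induction l with
  | nil =>
    intro r _ _
    simp [lst, us]
  | cons v l ih =>
    intro r hs hv
    have hv0 := hv v (by simp)
    have hp := List.pairwise_cons.mp hs
    have h := ih (v - (6 + t) - r) hp.2 (by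
      intro w hw
      have := hp.1 w hw
      omega)
    rw [List.map_cons, List.sum_cons]
    simp only [lst, us]
    omega

theorem os_even (t : ℕ) (l : List ℕ) : ∀ r, r % 2 = 0 → (∀ v ∈ l, 6 + t + r ≤ v) →
    l.Pairwise (· ≤ ·) → (∀ v ∈ l, v % 2 = t % 2) → os t r l = 0 := by
  induction l with
  | nil =>
    intro r _ _ _ _
    rfl
  | cons v l ih =>
    intro r hr hv hs h2
    have hv0 := hv v (by simp)
    have hp := List.pairwise_cons.mp hs
    have h3 := h2 v (by simp)
    have h := ih (v - (6 + t) - r) (by omega) (by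
      intro w hw
      have := hp.1 w hw
      omega) hp.2 (fun w hw => h2 w (by simp [hw]))
    simp only [os]
    omega

theorem os_odd (t : ℕ) (l : List ℕ) : ∀ r, (∀ v ∈ l, 6 + t + r ≤ v) →
    l.Pairwise (· ≤ ·) → (∀ v ∈ l, v % 2 ≠ t % 2) → 2 * os t r l + r % 2 ≤ l.length + 1 := by
  induction l with
  | nil =>
    intro r _ _ _
    simp only [os, List.length_nil]
    omega
  | cons v l ih =>
    intro r hv hs h2
    have hv0 := hv v (by simp)
    have hp := List.pairwise_cons.mp hs
    have h3 := h2 v (by simp)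
    have h := ih (v - (6 + t) - r) (by
      intro w hw
      have := hp.1 w hw
      omega) hp.2 (fun w hw => h2 w (by simp [hw]))
    simp only [os, List.length_cons]
    omega

theorem lst_le (t : ℕ) (l : List ℕ) : ∀ r M, l.Pairwise (· ≤ ·) → (∀ v ∈ l, 6 + t + r ≤ v) →
    6 + t + r ≤ M → (∀ v ∈ l, v ≤ M) → 6 + t + lst t r l ≤ M := by
  induction l with
  | nil =>
    intro r M _ _ h _
    exact h
  | cons v l ih =>
    intro r M hs hv h hM
    have hv0 := hv v (by simp)
    have hp := List.pairwise_cons.mp hs
    have hvM := hM v (by simp)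
    simp only [lst]
    apply ih (v - (6 + t) - r) M hp.2
    · intro w hw
      have := hp.1 w hw
      omega
    · omega
    · intro w hw
      exact hM w (by simp [hw])

/-- potential -/
def ps (t k : ℕ) : ℕ := 2 * al t k + 2 * al t (k + 1) + al t (k + 2) + 2 * be t k + be t (k + 1) +
  be t (k + 2)

theorem fs_eq (t k : ℕ) (ht : t ≤ 6) (m : ℕ) : 3 * fs t k m + ps t (k + m) = t * m + ps t k := by
  induction m with
  | zero => simp [fs]
  | succ m ih =>
    have hc := classes t (k + m) ht
    have a1 : al t (k + (m + 1)) = al t (k + m + 1) := rfl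
    have a2 : al t (k + (m + 1) + 1) = al t (k + m + 2) := rfl
    have a3 : al t (k + (m + 1) + 2) = al t (k + m + 3) := rfl
    have b1 : be t (k + (m + 1)) = be t (k + m + 1) := rfl
    have b2 : be t (k + (m + 1) + 1) = be t (k + m + 2) := rfl
    have b3 : be t (k + (m + 1) + 2) = be t (k + m + 3) := rfl
    simp only [fs, ps, Nat.mul_succ] at ih ⊢
    omega

theorem fs_le (t k : ℕ) (ht : t ≤ 6) (m : ℕ) : 3 * fs t k m ≤ t * m + 9 := by
  have h := fs_eq t k ht m
  have h1 := al_le t k
  have h2 := al_le t (k + 1)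
  have h3 := al_le t (k + 2)
  have h4 := be_le t k
  have h5 := be_le t (k + 1)
  have h6 := be_le t (k + 2)
  unfold ps at h
  omega

/-- allocation of the units -/
theorem alloc (a b c d p U O : ℕ) (h : 2 * a + (b + c + d) = p + U) (hO : p % 2 + O ≤ b + c + d)
    (hU : O ≤ U) : ∃ a' b' c' d', a' ≤ a ∧ b' ≤ b ∧ c' ≤ c ∧ d' ≤ d ∧
      2 * a' + (b' + c' + d') = p ∧ 2 * (a - a') + ((b - b') + (c - c') + (d - d')) = U ∧
      O ≤ (b - b') + (c - c') + (d - d') := by
  obtain ⟨a', ha'⟩ : ∃ a', a' = min a (p / 2) := ⟨_, rfl⟩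
  obtain ⟨s, hs⟩ : ∃ s, s = p - 2 * a' := ⟨_, rfl⟩
  refine ⟨a', min b s, min c (s - min b s), s - min b s - min c (s - min b s), ?_, ?_, ?_, ?_, ?_,
    ?_, ?_⟩ <;> omega

/-- the tube -/
theorem run (t : ℕ) (ht : t ≤ 6) (l : List ℕ) : ∀ (r k : ℕ) (D : Multiset ℕ) (a b c d : ℕ),
    l.Pairwise (· ≤ ·) → (∀ v ∈ l, 6 + t + r ≤ v) → 2 * a + (b + c + d) = us t r l →
    os t r l ≤ b + c + d → (t < 6 → b + c + d = 0) →
    Fil (xs t (k + l.length)) (ys t (k + l.length)) (zs t (k + l.length) + r) D →
    Fil (xs t k) (ys t k) (zs t k + lst t r l)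
      ((l : Multiset ℕ) + D + replicate (fs t k l.length) 3 + ext a b c d) := by
  induction l with
  | nil =>
    intro r k D a b c d _ _ h1 _ _ hD
    simp only [us] at h1
    have ha : a = 0 := by omega
    have hb : b = 0 := by omega
    have hc : c = 0 := by omega
    have hd : d = 0 := by omega
    subst ha hb hc hd
    simpa [lst, fs, ext] using hD
  | cons v l ih =>
    intro r k D a b c d hs hv h1 h2 h3 hD
    have hv0 := hv v (by simp)
    have hp := List.pairwise_cons.mp hs
    simp only [us] at h1
    simp only [os] at h2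
    obtain ⟨a', b', c', d', ha, hb, hc, hd, h4, h5, h6⟩ := alloc a b c d _ _ _ h1 h2 (os_le t l _)
    have hD' : Fil (xs t (k + l.length + 1)) (ys t (k + l.length + 1))
        (zs t (k + l.length + 1) + r) D := hD
    have hst := step ht a' b' c' d' (v - (6 + t) - r) h4 (by
      intro h7
      have := h3 h7
      omega) hD'
    have e1 : 6 + t + r + (v - (6 + t) - r) = v := by omega
    rw [e1] at hst
    have hr := ih (v - (6 + t) - r) k _ (a - a') (b - b') (c - c') (d - d') hp.2 (by
      intro w hw
      have := hp.1 w hw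
      omega) h5 h6 (by
      intro h7
      have := h3 h7
      omega) hst
    have e2 : ext a b c d = ext (a - a') (b - b') (c - c') (d - d') + ext a' b' c' d' := by
      rw [← ext_add]
      congr 1 <;> omega
    have e3 : ((v :: l : List ℕ) : Multiset ℕ) + D + replicate (fs t k (v :: l).length) 3 +
        ext a b c d =
        (l : Multiset ℕ) + (v ::ₘ (D + replicate (al t (k + l.length) + be t (k + l.length)) 3 +
          ext a' b' c' d')) + replicate (fs t k l.length) 3 +
          ext (a - a') (b - b') (c - c') (d - d') := by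
      rw [e2, List.length_cons]
      simp only [fs]
      rw [replicate_add, ← Multiset.cons_coe, Multiset.cons_add, Multiset.cons_add,
        Multiset.cons_add, Multiset.add_cons, Multiset.cons_add, Multiset.cons_add]
      congr 1
      abel
    rw [e3]
    exact hr

theorem fkey {a b c : ℕ} {D : Multiset ℕ} (h : Fil a b c D) : Fil a b 0 (c ::ₘ D) := by
  have h1 := fil_stack 0 0 0 (by omega) (by omega) (by omega) fil_nil fil_nil h
  simpa using h1

/-- all members are raised by gadgets -/
theorem fsmall (l : Multiset ℕ) : Fil 0 0 0 (l + replicate (5 * l.sum) 3) := by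
  induction l using Multiset.induction with
  | empty => exact fil_nil
  | cons v l ih =>
    have h1 : Fil 0 0 0 (v ::ₘ replicate (5 * v) 3) := by
      have h2 := fraise fil_nil 0 0 v
      simp only [zero_add] at h2
      exact fkey h2
    have h3 := fil_add ih h1
    have h4 : l + replicate (5 * l.sum) 3 + (v ::ₘ replicate (5 * v) 3) =
        v ::ₘ l + replicate (5 * (v ::ₘ l).sum) 3 := by
      rw [Multiset.sum_cons, Nat.mul_add, replicate_add, Multiset.add_cons, Multiset.cons_add]
      congr 1
      abel
    rw [h4] at h3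
    exact h3

theorem sum_le_mul (l : Multiset ℕ) (M : ℕ) (h : ∀ v ∈ l, v ≤ M) : l.sum ≤ card l * M := by
  have := Multiset.sum_le_card_nsmul l M h
  simpa using this

theorem sum_sub_le (l : Multiset ℕ) (s : ℕ) : (l.map fun v => v - s).sum ≤ l.sum := by
  induction l using Multiset.induction with
  | empty => simp
  | cons v l ih =>
    rw [Multiset.map_cons, Multiset.sum_cons, Multiset.sum_cons]
    omega

/-- TUB -/
theorem tub : TubStmt := by
  intro t Δ l ht1 ht6 hl
  by_cases hcard : card l < 3
  · have hs : l.sum ≤ 2 * Δ := by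
      have h1 := sum_le_mul l Δ (fun v hv => (hl v hv).2)
      have h2 : card l * Δ ≤ 2 * Δ := Nat.mul_le_mul_right Δ (by omega)
      omega
    have hq := sum_sub_le l (6 + t)
    refine ⟨0, 0, 0, 5 * l.sum, by omega, by omega, le_refl _, rfl, fun _ => rfl, fun _ => by omega,
      by omega, by omega, ?_⟩
    intro a b c d h1 _ _
    have ha : a = 0 := by omega
    have hb : b = 0 := by omega
    have hc : c = 0 := by omega
    have hd : d = 0 := by omega
    subst ha hb hc hd
    have h2 := pz_of_fil (fsmall l)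
    simpa using h2
  · obtain ⟨L, hL, hLs⟩ : ∃ L : List ℕ, (L : Multiset ℕ) = l ∧ L.Pairwise (· ≤ ·) :=
      ⟨l.sort (· ≤ ·), Multiset.sort_eq _ _, Multiset.pairwise_sort _ _⟩
    have hlen : L.length = card l := by
      rw [← hL]
      simp
    have h3 : (L.drop (L.length - 3)).length = 3 := by
      rw [List.length_drop]
      omega
    obtain ⟨x, y, z, hxyz⟩ := List.length_eq_three.mp h3
    obtain ⟨L', hL'⟩ : ∃ L', L' = L.take (L.length - 3) := ⟨_, rfl⟩
    have hsplit : L' ++ [x, y, z] = L := by
      rw [hL', ← hxyz]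
      exact List.take_append_drop _ _
    have hlen' : L'.length + 3 = card l := by
      rw [← hlen, ← hsplit]
      simp
    have hmem : ∀ v ∈ L, 6 + t ≤ v ∧ v ≤ Δ := by
      intro v hv
      apply hl
      rw [← hL]
      exact hv
    rw [← hsplit] at hLs hmem
    obtain ⟨hs1, _, hs3⟩ := List.pairwise_append.mp hLs
    have hx := hmem x (by simp)
    have hy := hmem y (by simp)
    have hz := hmem z (by simp)
    have hm' : ∀ v ∈ L', 6 + t ≤ v ∧ v ≤ Δ := fun v hv => hmem v (by simp [hv])
    have hz' : ∀ v ∈ L', v ≤ z := fun v hv => hs3 v hv z (by simp)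
    have hl0 : ∀ v ∈ L', 6 + t + 0 ≤ v := fun v hv => by
      have := (hm' v hv).1
      omega
    have hlst := lst_le t L' 0 z hs1 hl0 (by omega) hz'
    have hus := us_sum t L' 0 hs1 hl0
    have hfs := fs_le t 0 ht6 L'.length
    have b1 : ∀ k, xs t k ≤ 3 := fun k => by
      have := al_le t k
      have := be_le t k
      unfold xs
      omega
    have b2 : ∀ k, ys t k ≤ 5 := fun k => by
      have := al_le t k
      have := al_le t (k + 1)
      have := be_le t (k + 1)
      unfold ys
      omega
    have b3 : ∀ k, zs t k ≤ 7 := fun k => by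
      have := be_le t k
      have := al_le t (k + 1)
      have := al_le t (k + 2)
      have := be_le t (k + 2)
      unfold zs
      omega
    have hlm : l = (L' : Multiset ℕ) + (x ::ₘ y ::ₘ z ::ₘ 0) := by
      rw [← hL, ← hsplit, ← Multiset.coe_add]
      rfl
    have hmap : (l.map fun v => v - (6 + t)).sum =
        (L'.map fun v => v - (6 + t)).sum + ((x - (6 + t)) + ((y - (6 + t)) + (z - (6 + t)))) := by
      rw [hlm]
      simp
      omega
    obtain ⟨G, hG⟩ : ∃ G, G = 5 * (xs t L'.length + ys t L'.length + zs t L'.length) +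
        5 * ((x - xs t 0) + (y - ys t 0) + (z - (zs t 0 + lst t 0 L'))) := ⟨_, rfl⟩
    have c1 := b1 L'.length
    have c2 := b2 L'.length
    have c3 := b3 L'.length
    have c4 := b1 0
    have c5 := b2 0
    have c6 := b3 0
    refine ⟨us t 0 L', os t 0 L', fs t 0 L'.length, G, ?_, ?_, os_le t L' 0, os_mod t L' 0, ?_, ?_,
      ?_, ?_, ?_⟩
    · rw [hmap]
      omega
    · rw [hmap]
      omega
    · intro h2
      apply os_even t L' 0 rfl hl0 hs1
      intro v hv
      apply h2
      rw [hlm]
      simp [hv]
    · intro h2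
      have h4 := os_odd t L' 0 hl0 hs1 (fun v hv => h2 v (by
        rw [hlm]
        simp [hv]))
      omega
    · have h5 : t * L'.length ≤ t * card l := Nat.mul_le_mul_left t (by omega)
      omega
    · omega
    · intro a b c d h1 h2 h4
      have hstart : Fil (xs t (0 + L'.length)) (ys t (0 + L'.length)) (zs t (0 + L'.length) + 0)
          (replicate (5 * (xs t L'.length + ys t L'.length + zs t L'.length)) 3) := by
        have h5 := fraise fil_nil (xs t L'.length) (ys t L'.length) (zs t L'.length)
        simpa using h5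
      have hrun := run t ht6 L' 0 0 _ a b c d hs1 hl0 h1 h2 h4 hstart
      have hr := fraise hrun (x - xs t 0) (y - ys t 0) (z - (zs t 0 + lst t 0 L'))
      have e1 : xs t 0 + (x - xs t 0) = x := by omega
      have e2 : ys t 0 + (y - ys t 0) = y := by omega
      have e3 : zs t 0 + lst t 0 L' + (z - (zs t 0 + lst t 0 L')) = z := by omega
      rw [e1, e2, e3] at hr
      have hfin := pz_of_fil (fclose hr)
      have e4 : (x ::ₘ y ::ₘ z ::ₘ ((L' : Multiset ℕ) +
          replicate (5 * (xs t L'.length + ys t L'.length + zs t L'.length)) 3 +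
          replicate (fs t 0 L'.length) 3 + ext a b c d +
          replicate (5 * (x - xs t 0 + (y - ys t 0) + (z - (zs t 0 + lst t 0 L')))) 3)) =
          l + replicate (fs t 0 L'.length + G + 2 * a) 3 + replicate b 2 + replicate c 4 +
            replicate (2 * d) 1 := by
        rw [hlm, hG, replicate_add, replicate_add, replicate_add]
        unfold ext
        rw [← Multiset.singleton_add x, ← Multiset.singleton_add y, ← Multiset.singleton_add z,
          ← Multiset.singleton_add x, ← Multiset.singleton_add y, ← Multiset.singleton_add z]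
        abel
      rw [e4] at hfin
      exact hfin

end Pool.Agent.PDZ
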