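import Pool.Agent.PDZ.Defs

/-!
# PDZ: units and gadgets
-/

set_option autoImplicit false

namespace Pool.Agent.PDZ

open Multiset

/-- a leaf -/
theorem fu1 : Fil 1 0 0 {1} := by
  have h := fil_stack 1 0 0 (by omega) (by omega) (by omega) fil_nil fil_nil fil_nil
  exact h

/-- a vertex of degree two -/
theorem fu2 : Fil 1 1 0 {2} := by
  have h := fil_stack 1 1 0 (by omega) (by omega) (by omega) fil_nil fil_nil fil_nil
  exact h

/-- a vertex of degree three -/
theorem ft : Fil 1 1 1 {3} := by
  have h := fil_stack 1 1 1 (by omega) (by omega) (by omega) fil_nil fil_nil fil_nil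
  exact h

/-- a pair of vertices of degree three -/
theorem fu3 : Fil 2 2 0 (replicate 2 3) := by
  have h := fil_stack 1 1 0 (by omega) (by omega) (by omega) fil_nil fil_nil ft
  exact h

/-- a pair of leaves -/
theorem fu11 : Fil 1 1 0 (replicate 2 1) := fil_add (a := 1) (b := 0) fu1 (fil_swap12 fu1)

/-- the pendant subdivided `K₄` -/
theorem fg : Fil 1 0 0 (replicate 5 3) := by
  have h3 : Fil 2 0 2 (replicate 2 3) :=
    fil_stack 1 0 1 (by omega) (by omega) (by omega) fil_nil ft fil_nil
  have h2 : Fil 1 0 2 (replicate 3 3) :=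
    fil_stack 1 0 0 (by omega) (by omega) (by omega) h3 fil_nil fil_nil
  have h1 : Fil 2 0 0 (replicate 4 3) :=
    fil_stack 1 0 0 (by omega) (by omega) (by omega) fil_nil fil_nil h2
  exact fil_stack 1 0 0 (by omega) (by omega) (by omega) h1 fil_nil fil_nil

/-- multiples of a drawing which uses two corners -/
theorem fil_mul {a b : ℕ} {D : Multiset ℕ} (h : Fil a b 0 D) (n : ℕ) :
    Fil (n * a) (n * b) 0 (n • D) := by
  induction n with
  | zero =>
    rw [Nat.zero_mul, Nat.zero_mul, zero_nsmul]
    exact fil_nil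
  | succ n ih =>
    have h1 := fil_add ih h
    rw [Nat.succ_mul, Nat.succ_mul, succ_nsmul]
    exact h1

/-- the chain: a 3 and `c` vertices of degree four; the hubs are the first two corners -/
theorem fchain (c : ℕ) : Fil (1 + c) (1 + c) 1 (3 ::ₘ replicate c 4) := by
  induction c with
  | zero => exact ft
  | succ c ih =>
    have h := fil_stack 1 1 1 (by omega) (by omega) (by omega) fil_nil fil_nil ih
    have e1 : 0 + (1 + c) + 1 = 1 + (c + 1) := by omega
    have e2 : (0 + 0 + 1 + (1 + 1 + 1) : ℕ) = 4 := rfl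
    rw [e1, e2] at h
    have e3 : (4 ::ₘ ((0 : Multiset ℕ) + 0 + 3 ::ₘ replicate c 4)) =
        3 ::ₘ replicate (c + 1) 4 := by
      rw [zero_add, zero_add, replicate_succ, Multiset.cons_swap]
    rw [e3] at h
    exact h

/-- extra units -/
def ext (a b c d : ℕ) : Multiset ℕ :=
  replicate (2 * a) 3 + replicate b 2 + replicate c 4 + replicate (2 * d) 1

theorem ext_add (a b c d a' b' c' d' : ℕ) :
    ext (a + a') (b + b') (c + c') (d + d') = ext a b c d + ext a' b' c' d' := by
  unfold ext
  rw [Nat.mul_add, Nat.mul_add, replicate_add, replicate_add, replicate_add, replicate_add]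
  abel

theorem nsmul_rep (n m x : ℕ) : n • replicate m x = replicate (n * m) x := by
  rw [nsmul_replicate]

/-- extra units in a face which is filled by a 3 -/
theorem fext1 (a b c d p : ℕ) (h : 2 * a + (b + c + d) = p) :
    Fil (1 + p) (1 + p) 1 (3 ::ₘ ext a b c d) := by
  have h1 := fil_add (fchain c) (fil_mul fu3 a)
  have h2 := fil_add h1 (fil_mul fu2 b)
  have h3 := fil_add h2 (fil_mul fu11 d)
  have e1 : 1 + c + a * 2 + b * 1 + d * 1 = 1 + p := by omega
  have e2 : 3 ::ₘ replicate c 4 + a • replicate 2 3 + b • {2} + d • replicate 2 1 =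
      3 ::ₘ ext a b c d := by
    have e3 : ({2} : Multiset ℕ) = replicate 1 2 := rfl
    rw [e3, nsmul_rep, nsmul_rep, nsmul_rep, mul_one, mul_comm a 2, mul_comm d 2]
    unfold ext
    rw [Multiset.cons_add, Multiset.cons_add, Multiset.cons_add]
    congr 1
    abel
  rw [e1, e2] at h3
  exact h3

/-- extra units in an empty face -/
theorem fext0 (a p : ℕ) (h : 2 * a = p) : Fil p p 0 (ext a 0 0 0) := by
  have h1 := fil_mul fu3 a
  have e1 : a * 2 = p := by omega
  have e2 : a • replicate 2 3 = ext a 0 0 0 := by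
    rw [nsmul_rep, mul_comm]
    simp [ext]
  rw [e1, e2] at h1
  exact h1

/-- raising the corners -/
theorem fraise {a b c : ℕ} {D : Multiset ℕ} (h : Fil a b c D) (x y z : ℕ) :
    Fil (a + x) (b + y) (c + z) (D + replicate (5 * (x + y + z)) 3) := by
  have h1 := fil_add h (fil_mul fg x)
  have h2 := fil_add (fil_rot h1) (fil_mul fg y)
  have h3 := fil_add (fil_rot h2) (fil_mul fg z)
  have h4 := fil_rot h3
  have e : D + x • replicate 5 3 + y • replicate 5 3 + z • replicate 5 3 =
      D + replicate (5 * (x + y + z)) 3 := by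
    rw [nsmul_rep, nsmul_rep, nsmul_rep, add_assoc, add_assoc, ← replicate_add, ← replicate_add]
    congr 2
    ring
  rw [e] at h4
  simpa using h4

/-- the corners become vertices -/
theorem fclose {a b c : ℕ} {D : Multiset ℕ} (h : Fil a b c D) :
    Fil 0 0 0 (a ::ₘ b ::ₘ c ::ₘ D) := by
  have key : ∀ {a b c : ℕ} {D : Multiset ℕ}, Fil a b c D → Fil a b 0 (c ::ₘ D) := by
    intro a b c D h
    have h1 := fil_stack 0 0 0 (by omega) (by omega) (by omega) fil_nil fil_nil h
    simpa using h1
  exact key (fil_swap13 (key (fil_swap23 (key h))))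

end Pool.Agent.PDZ
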